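import Pool.Agent.W528.HF.Stm

/-!
# The arithmetic of the exponents for composite `n` (helper349, after W160.HD.AP)
-/

set_option autoImplicit false

namespace Pool.Agent.W349.HF.AN

open Finset

theorem key {x r : ℕ} (hr : 0 < r) : x % r + ((r - 1) * x) % r ≤ r := by
  have h1 : r ∣ x % r + ((r - 1) * x) % r := by
    rw [Nat.dvd_iff_mod_eq_zero, ← Nat.add_mod]
    have : x + (r - 1) * x = r * x := by
      obtain ⟨k, rfl⟩ : ∃ k, r = k + 1 := ⟨r - 1, by omega⟩
      rw [Nat.add_sub_cancel]; ring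
    rw [this, Nat.mul_mod_right]
  obtain ⟨k, hk⟩ := h1
  have h2 := Nat.mod_lt x hr
  have h3 := Nat.mod_lt ((r - 1) * x) hr
  have h4 : k < 2 := by
    by_contra hc
    push Not at hc
    have := Nat.mul_le_mul_left r hc
    omega
  have h5 : k ≤ 1 := by omega
  have := Nat.mul_le_mul_left r h5
  omega

/-- a multiplier prime to `n` -/
theorem exists_inv (n g j0 n0 : ℕ) (hn : n = g * n0) (hpos : 0 < n) (hcop : j0.Coprime n0) :
    ∃ ji : ℕ, ji.Coprime n ∧ ji * (g * j0) ≡ g [MOD n] := by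
  have : NeZero n := ⟨hpos.ne'⟩
  have hdvd : n0 ∣ n := ⟨g, by rw [hn]; ring⟩
  obtain ⟨w, hw⟩ := ZMod.unitsMap_surjective hdvd (ZMod.unitOfCoprime j0 hcop)⁻¹
  refine ⟨(w : ZMod n).val, ZMod.val_coe_unit_coprime w, ?_⟩
  have h1 : (((w : ZMod n).val : ℕ) : ZMod n0) = ((ZMod.unitOfCoprime j0 hcop)⁻¹ : (ZMod n0)ˣ) := by
    rw [← hw, ZMod.unitsMap_val]
    exact ZMod.natCast_val _
  have h2 : (((w : ZMod n).val * j0 : ℕ) : ZMod n0) = ((1 : ℕ) : ZMod n0) := by
    rw [Nat.cast_mul, h1, ← ZMod.coe_unitOfCoprime j0 hcop, Units.inv_mul, Nat.cast_one]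
  have h3 : (w : ZMod n).val * j0 ≡ 1 [MOD n0] := (ZMod.natCast_eq_natCast_iff _ _ _).1 h2
  have h4 := h3.mul_left' g
  rw [← hn, mul_one] at h4
  calc (w : ZMod n).val * (g * j0) = g * ((w : ZMod n).val * j0) := by ring
    _ ≡ g [MOD n] := h4

theorem main : Pool.Agent.W528.HF.AN := by
  intro n r c F D hn hr hrn hc _ hnc hF m a ha hsum hD j s hj hjn hs
  obtain ⟨g, hg⟩ : ∃ g, g = Nat.gcd j n := ⟨_, rfl⟩
  have hgpos : 0 < g := by rw [hg]; exact Nat.gcd_pos_of_pos_left n hj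
  obtain ⟨j0, hj0⟩ : g ∣ j := by rw [hg]; exact Nat.gcd_dvd_left j n
  obtain ⟨n0, hn0⟩ : g ∣ n := by rw [hg]; exact Nat.gcd_dvd_right j n
  have hcop : j0.Coprime n0 := by
    have h1 : g * Nat.gcd j0 n0 = g * 1 := by
      rw [← Nat.gcd_mul_left, ← hj0, ← hn0, ← hg, mul_one]
    exact Nat.eq_of_mul_eq_mul_left hgpos h1
  have hn0pos : 0 < n0 := by
    rcases Nat.eq_zero_or_pos n0 with h | h
    · rw [h, mul_zero] at hn0; omega
    · exact h
  have hn02 : n0 ≠ 1 := by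
    intro h
    rw [h, mul_one] at hn0
    have h1 : n ∣ j := by rw [hn0]; exact ⟨j0, hj0⟩
    have := Nat.le_of_dvd hj h1
    omega
  have hsn : 2 * D * ∑ i, a i < n0 := by
    obtain ⟨l, hl, hln⟩ := Nat.exists_prime_and_dvd hn02
    have h1 := hsum l hl (hln.trans ⟨g, by rw [hn0]; ring⟩)
    have h2 := Nat.le_of_dvd hn0pos hln
    omega
  obtain ⟨ji, hjic, hji⟩ := exists_inv n g j0 n0 hn0 (by omega) hcop
  rw [← hj0] at hji
  have hc1 : c ≡ 1 [MOD n] := by
    have h1 : 1 ≤ c := hc.one_lt.le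
    exact ((Nat.modEq_iff_dvd' h1).2 hnc).symm
  have hce : ∀ e, c ^ e ≡ 1 [MOD n] := fun e => by
    have := hc1.pow e
    rwa [one_pow] at this
  -- the chosen multiplier
  have main' : ∀ t : ℕ, Nat.Coprime t r → ∃ j' : ℕ, j'.Coprime (n * r) ∧ j' * j ≡ g [MOD n] ∧
      j' ≡ t [MOD r] := by
    intro t ht
    obtain ⟨k, hk1, hk2⟩ := Nat.chineseRemainder hrn t ji
    have h1 : k * j ≡ g [MOD n] := (hk2.mul_right j).trans hji
    refine ⟨k, ?_, h1, hk1⟩
    refine Nat.Coprime.mul_right ?_ ?_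
    · unfold Nat.Coprime
      rw [hk2.gcd_eq]
      exact hjic
    · unfold Nat.Coprime
      rw [hk1.gcd_eq]
      exact ht
  have hfirst : ∀ j' : ℕ, j' * j ≡ g [MOD n] →
      D * ∑ i, ∑ e ∈ range F, (j' * (r * (j * a i % n)) * c ^ e) % (n * r)
        ≤ D * (F * (r * (g * ∑ i, a i))) := by
    intro j' hj'
    refine Nat.mul_le_mul_left D ?_
    have h1 : ∀ i, ∀ e, (j' * (r * (j * a i % n)) * c ^ e) % (n * r) ≤ r * (g * a i) := by
      intro i e
      have h2 : j' * (r * (j * a i % n)) * c ^ e = r * (j' * (j * a i % n) * c ^ e) := by ring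
      rw [h2, mul_comm n r, Nat.mul_mod_mul_left]
      refine Nat.mul_le_mul_left r ?_
      have h3 : j' * (j * a i % n) * c ^ e ≡ g * a i [MOD n] := by
        calc j' * (j * a i % n) * c ^ e ≡ j' * (j * a i) * 1 [MOD n] :=
              ((Nat.mod_modEq _ _).mul_left j').mul (hce e)
          _ = (j' * j) * a i := by ring
          _ ≡ g * a i [MOD n] := hj'.mul_right _
      have h4 : j' * (j * a i % n) * c ^ e % n = g * a i % n := h3
      rw [h4]
      exact Nat.mod_le _ _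
    calc ∑ i, ∑ e ∈ range F, (j' * (r * (j * a i % n)) * c ^ e) % (n * r)
        ≤ ∑ i, ∑ e ∈ range F, r * (g * a i) :=
          Finset.sum_le_sum fun i _ => Finset.sum_le_sum fun e _ => h1 i e
      _ = F * (r * (g * ∑ i, a i)) := by
          simp only [Finset.sum_const, Finset.card_range, smul_eq_mul]
          rw [← Finset.mul_sum, ← Finset.mul_sum, ← Finset.mul_sum]
  have hsec : ∀ (j' t : ℕ), j' ≡ t [MOD r] → ∑ e ∈ range F, (j' * (n * s) * c ^ e) % (n * r)
      = n * ∑ e ∈ range F, (t * (s * c ^ e)) % r := by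
    intro j' t hj'
    rw [Finset.mul_sum]
    refine Finset.sum_congr rfl fun e _ => ?_
    have h2 : j' * (n * s) * c ^ e = n * (j' * (s * c ^ e)) := by ring
    rw [h2, Nat.mul_mod_mul_left]
    congr 1
    exact hj'.mul_right _
  have hsumle : ∑ e ∈ range F, (1 * (s * c ^ e)) % r +
      ∑ e ∈ range F, ((r - 1) * (s * c ^ e)) % r ≤ F * r := by
    rw [← Finset.sum_add_distrib]
    calc ∑ e ∈ range F, ((1 * (s * c ^ e)) % r + ((r - 1) * (s * c ^ e)) % r)
        ≤ ∑ e ∈ range F, r := Finset.sum_le_sum fun e _ => by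
          rw [one_mul]; exact key hr
      _ = F * r := by simp
  have hfin : ∀ A S : ℕ, A ≤ D * (F * (r * (g * ∑ i, a i))) → 2 * S ≤ F * r →
      A + n * S < F * (n * r) := by
    intro A S hA hS
    have h1 : 2 * (D * (F * (r * (g * ∑ i, a i)))) = F * r * g * (2 * D * ∑ i, a i) := by ring
    have h2 : F * r * g * (2 * D * ∑ i, a i) < F * r * g * n0 :=
      Nat.mul_lt_mul_of_pos_left hsn (Nat.mul_pos (Nat.mul_pos hF hr) hgpos)
    have h3 : n * (2 * S) ≤ n * (F * r) := Nat.mul_le_mul_left n hS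
    have h4 : F * r * g * n0 = F * (n * r) := by rw [hn0]; ring
    have h5 : n * (F * r) = F * (n * r) := by ring
    have h6 : n * (2 * S) = 2 * (n * S) := by ring
    omega
  by_cases h : 2 * ∑ e ∈ range F, (1 * (s * c ^ e)) % r ≤ F * r
  · obtain ⟨j', h1, h2, h3⟩ := main' 1 (Nat.coprime_one_left r)
    refine ⟨j', h1, ?_⟩
    rw [hsec j' 1 h3]
    exact hfin _ _ (hfirst j' h2) h
  · have hcop' : Nat.Coprime (r - 1) r := by
      have : Nat.Coprime (r - 1) (r - 1 + 1) := by simp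
      rwa [Nat.sub_add_cancel hr] at this
    obtain ⟨j', h1, h2, h3⟩ := main' (r - 1) hcop'
    refine ⟨j', h1, ?_⟩
    rw [hsec j' (r - 1) h3]
    exact hfin _ _ (hfirst j' h2) (by omega)

end Pool.Agent.W349.HF.AN
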